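import Pool.Agent.Y319.SX.Par
import Pool.Agent.Y316.SD.A2

set_option autoImplicit false

/-!
# Uniform power saving: X2, X3, X4, X5
-/

namespace Pool.Agent.Y319.SX

open Finset Pool.Agent.H935R2.PS Pool.Agent.Y258 Pool.Agent.Y316.SD

theorem x2 : St_X2 := by
  intro κ hκ
  obtain ⟨C, hC⟩ := nbrX κ hκ
  refine ⟨C, ?_⟩
  intro q _ hS hq ι _ _ hι D K0 hD1 hDκ hK0
  classical
  have hmain := hC q hS hq ι hι D K0 hDκ hK0
    (fun b => if ∑ a, b a + K0 ≤ D * La q then 1 else 0)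
    (fun b => by split_ifs <;> norm_num)
    (fun b => by split_ifs <;> norm_num)
    (fun b => by
      split_ifs with h1
      · rw [one_mul]
        exact pow_le_pow_right₀ (by norm_num) (by omega)
      · rw [zero_mul]
        positivity)
    ((univ : Finset (ι → ZMod q)).filter (fun h => (∀ a, h a ≠ 0) ∧ ¬ BdP D K0 h ∧
    BdL D K0 h))
    (fun h hh => (mem_filter.mp hh).2.1)
    (fun h hh => not_bd_of_not_bdP h (mem_filter.mp hh).2.1 (mem_filter.mp hh).2.2.1)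
    (fun _ => 1) (fun _ _ => zero_le_one) (fun _ _ => le_refl _)
    (fun h hh => by
      obtain ⟨-, h0, hB, c, hc, hcB⟩ := mem_filter.mp hh
      have hcm : c ∈ (univ : Finset (ZMod q)).filter
          (fun c => c ≠ 0 ∧ ¬ Prl h (fun a => c * h a)) := by
        rw [mem_filter]
        refine ⟨mem_univ _, hc, fun hP => hB ⟨fun a => c * h a, fun a => mul_ne_zero hc (h0 a),
          hP, hcB⟩⟩
      have h1 : (fun b : ι → ℕ => if ∑ a, b a + K0 ≤ D * La q then (1:ℝ) else 0)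
          (fun a => dl (c * h a)) = 1 := if_pos hcB
      refine h1.symm.le.trans ?_
      exact single_le_sum (f := fun c : ZMod q =>
        (fun b : ι → ℕ => if ∑ a, b a + K0 ≤ D * La q then (1:ℝ) else 0) (fun a => dl (c * h a)))
        (fun c _ => by dsimp only; split_ifs <;> norm_num) hcm)
  simp only [mul_one] at hmain
  convert hmain using 2

open Classical in
/-- the non-parallel part of the total weight -/
noncomputable def NPW {q : ℕ} {ι : Type} [Fintype ι] [NeZero q] (D K0 : ℕ) (h : ι → ZMod q) : ℝ :=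
  ∑ c ∈ (univ : Finset (ZMod q)).filter (fun c => c ≠ 0 ∧ ¬ Prl h (fun a => c * h a)),
    (2:ℝ) ^ (D * La q) / 2 ^ (K0 + sz (fun a => c * h a))

open Classical in
/-- the parallel part of the total weight -/
noncomputable def PW {q : ℕ} {ι : Type} [Fintype ι] [NeZero q] (D K0 : ℕ) (h : ι → ZMod q) : ℝ :=
  ∑ c ∈ (univ : Finset (ZMod q)).filter (fun c => c ≠ 0 ∧ Prl h (fun a => c * h a)),
    (2:ℝ) ^ (D * La q) / 2 ^ (K0 + sz (fun a => c * h a))

theorem XW_split {q : ℕ} {ι : Type} [Fintype ι] [NeZero q] (D K0 : ℕ) (h : ι → ZMod q) :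
    XW D K0 h = PW D K0 h + NPW D K0 h := by
  classical
  unfold XW PW NPW
  have h1 := sum_filter_add_sum_filter_not ((univ : Finset (ZMod q)).filter (fun c => c ≠ 0))
    (fun c => Prl h (fun a => c * h a))
    (fun c => (2:ℝ) ^ (D * La q) / 2 ^ (K0 + sz (fun a => c * h a)))
  rw [filter_filter, filter_filter] at h1
  rw [← h1]

theorem NPW_nonneg {q : ℕ} {ι : Type} [Fintype ι] [NeZero q] (D K0 : ℕ) (h : ι → ZMod q) :
    0 ≤ NPW D K0 h := sum_nonneg fun c _ => by positivity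

theorem PW_nonneg {q : ℕ} {ι : Type} [Fintype ι] [NeZero q] (D K0 : ℕ) (h : ι → ZMod q) :
    0 ≤ PW D K0 h := sum_nonneg fun c _ => by positivity

theorem XW_nonneg {q : ℕ} {ι : Type} [Fintype ι] [NeZero q] (D K0 : ℕ) (h : ι → ZMod q) :
    0 ≤ XW D K0 h := sum_nonneg fun c _ => by positivity

open Classical in
/-- the sum over the non-parallel parts -/
theorem np_sum (κ : ℕ) (hκ : 2 ≤ κ) : ∃ C : ℕ, ∀ (q : ℕ) [Fact q.Prime], Suit q → C ≤ q →
    ∀ (ι : Type) [Fintype ι] [DecidableEq ι], Fintype.card ι = κ → ∀ D K0 : ℕ, D < κ →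
    max 11 (κ + 2) * uu q ≤ K0 → ∀ S : Finset (ι → ZMod q), (∀ h ∈ S, ∀ a, h a ≠ 0) →
    (∀ h ∈ S, ¬ BdL D K0 h) →
    ∑ h ∈ S, wt h * min 1 (NPW D K0 h) ≤ C * (La q : ℝ) ^ (κ - 2) * (uu q : ℝ) ^ 2 := by
  obtain ⟨C, hC⟩ := nbrX κ hκ
  refine ⟨C, ?_⟩
  intro q _ hSuit hq ι _ _ hι D K0 hDκ hK0 S hS0 hSB
  set L := La q with hL
  refine hC q hSuit (by omega) ι hι D K0 hDκ hK0
      (fun b => if D * L < K0 + ∑ a, b a then (2:ℝ) ^ (D * L) / 2 ^ (K0 + ∑ a, b a) else 0)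
      ?_ ?_ ?_ S hS0 ?_ _ ?_ ?_ ?_
  · intro b
    split_ifs <;> positivity
  · intro b
    split_ifs with h1
    · rw [div_le_one (by positivity)]
      exact pow_le_pow_right₀ (by norm_num) h1.le
    · norm_num
  · intro b
    split_ifs with h1
    · rw [div_mul_cancel₀ _ (by positivity)]
    · rw [zero_mul]
      positivity
  · intro h hh h1
    refine hSB h hh ⟨1, one_ne_zero, ?_⟩
    simpa only [one_mul] using h1
  · intro h _
    exact le_min zero_le_one (NPW_nonneg _ _ _)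
  · intro h _
    exact min_le_left _ _
  · intro h hh
    refine (min_le_right _ _).trans (sum_le_sum fun c hc => ?_)
    have h1 : ¬ Bd D K0 (fun a => c * h a) := fun h2 =>
      hSB h hh ⟨c, (mem_filter.mp hc).2.1, h2⟩
    unfold Bd at h1
    unfold sz at h1 ⊢
    rw [if_pos (by rw [hL]; rw [not_le] at h1; rw [add_comm]; exact h1)]

theorem uu_sq_le {q : ℕ} (hq : 2 ≤ q) : ((uu q : ℕ) : ℝ) ^ 2 ≤ 4 * La q := by
  have h1 := sq_le_two_pow (uu q)
  have h2 := uu_le q hq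
  have h3 : uu q ^ 2 ≤ 4 * La q := by omega
  exact_mod_cast h3

theorem x3 : St_X3 := by
  intro κ hκ
  obtain ⟨C, hC⟩ := np_sum κ hκ
  refine ⟨4 * C + 16 * 4 ^ κ + 3, ?_⟩
  intro q _ hSuit hq ι _ _ hι D K0 hD1 hDκ hK0
  classical
  have hq3 : 3 ≤ q := by omega
  set L := La q with hL
  have hL1 : 1 ≤ L := Nat.log_pos one_lt_two (by omega)
  set S := (univ : Finset (ι → ZMod q)).filter (fun h => (∀ a, h a ≠ 0) ∧ ¬ BdL D K0 h) with hS
  have hsplit : ∀ h ∈ S, wt h * min 1 (XW D K0 h) ≤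
      wt h * min 1 (NPW D K0 h) + wt h * PW D K0 h := by
    intro h _
    rw [← mul_add]
    refine mul_le_mul_of_nonneg_left ?_ (wt_nonneg h)
    rw [XW_split]
    have h2 := PW_nonneg D K0 h
    rcases min_cases 1 (NPW D K0 h) with ⟨h3, _⟩ | ⟨h3, _⟩
    · rw [h3]
      exact (min_le_left _ _).trans (by linarith)
    · rw [h3]
      exact (min_le_right _ _).trans (by linarith)
  have hgoal : ∑ h ∈ S, wt h * min 1 (XW D K0 h) ≤
      ((4 * C + 16 * 4 ^ κ + 3 : ℕ) : ℝ) * (L : ℝ) ^ (κ - 1) := by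
    refine (sum_le_sum hsplit).trans ?_
    rw [sum_add_distrib]
    have hpar := par_total (q := q) (ι := ι) hq3 (by omega) D K0
    rw [hι] at hpar
    have hpar' : ∑ h ∈ S, wt h * PW D K0 h ≤
        2 ^ κ * 4 * (2 * (2 ^ κ * 2 * (L : ℝ) ^ (κ - 1))) := by
      refine le_trans (le_of_eq ?_) hpar
      refine sum_congr ?_ fun h _ => ?_
      · rw [hS]
        refine filter_congr fun h _ => ?_
        refine and_congr_right fun _ => ?_
        unfold BdL
        push Not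
        exact Iff.rfl
      · congr 1
    have hnp : ∑ h ∈ S, wt h * min 1 (NPW D K0 h) ≤ C * (L : ℝ) ^ (κ - 2) * (uu q : ℝ) ^ 2 :=
      hC q hSuit (by omega) ι hι D K0 hDκ hK0 S (fun h hh => (mem_filter.mp hh).2.1)
        (fun h hh => (mem_filter.mp hh).2.2)
    have hu := uu_sq_le (q := q) (by omega)
    have hLk : (L:ℝ) ^ (κ - 2) * L = (L:ℝ) ^ (κ - 1) := by
      rw [← pow_succ]
      congr 1
      omega
    have e1 : C * (L : ℝ) ^ (κ - 2) * (uu q : ℝ) ^ 2 ≤ 4 * C * (L:ℝ) ^ (κ - 1) := by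
      rw [← hLk]
      calc C * (L : ℝ) ^ (κ - 2) * (uu q : ℝ) ^ 2 ≤ C * (L : ℝ) ^ (κ - 2) * (4 * L) :=
            mul_le_mul_of_nonneg_left hu (by positivity)
        _ = _ := by ring
    have e2 : (2:ℝ) ^ κ * 4 * (2 * (2 ^ κ * 2 * (L : ℝ) ^ (κ - 1))) =
        16 * 4 ^ κ * (L : ℝ) ^ (κ - 1) := by
      have h4 : (4:ℝ) ^ κ = 2 ^ κ * 2 ^ κ := by rw [← mul_pow]; norm_num
      rw [h4]
      ring
    rw [e2] at hpar'
    have e3 : (0:ℝ) ≤ (L:ℝ) ^ (κ - 1) := by positivity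
    push_cast
    calc _ ≤ 4 * C * (L:ℝ) ^ (κ - 1) + 16 * 4 ^ κ * (L : ℝ) ^ (κ - 1) :=
          add_le_add (hnp.trans e1) hpar'
      _ ≤ _ := by nlinarith
  convert hgoal using 2

theorem x4 : St_X4 := by
  intro κ hκ
  obtain ⟨C, hC⟩ := np_sum κ hκ
  refine ⟨C + 3, ?_⟩
  intro q _ hSuit hq ι _ _ hι D K0 hD1 hDκ hK0
  classical
  have hq3 : 3 ≤ q := by omega
  set S := (univ : Finset (ι → ZMod q)).filter (fun h => (∀ a, h a ≠ 0) ∧ ¬ BdL D K0 h ∧
    2 ^ (κ + 3) < XW D K0 h) with hS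
  have hnp := hC q hSuit (by omega) ι hι D K0 hDκ hK0 S (fun h hh => (mem_filter.mp hh).2.1)
    (fun h hh => (mem_filter.mp hh).2.2.1)
  have hgoal : ∑ h ∈ S, wt h ≤ ((C + 3 : ℕ) : ℝ) * (La q : ℝ) ^ (κ - 2) * (uu q : ℝ) ^ 2 := by
    calc ∑ h ∈ S, wt h ≤ ∑ h ∈ S, wt h * min 1 (NPW D K0 h) := by
          refine sum_le_sum fun h hh => ?_
          obtain ⟨-, h0, hB, hX⟩ := mem_filter.mp hh
          have h1 : PW D K0 h ≤ 2 ^ (κ + 2) := by
            have := par_le hq3 (by omega) D K0 h h0 hB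
            rw [hι] at this
            exact this
          rw [XW_split] at hX
          have h2 : (1:ℝ) ≤ 2 ^ (κ + 2) := one_le_pow₀ (by norm_num)
          have h3 : (2:ℝ) ^ (κ + 3) = 2 ^ (κ + 2) + 2 ^ (κ + 2) := by ring
          rw [min_eq_left (by linarith), mul_one]
      _ ≤ C * (La q : ℝ) ^ (κ - 2) * (uu q : ℝ) ^ 2 := hnp
      _ ≤ _ := by
          have : (C:ℝ) ≤ ((C + 3 : ℕ) : ℝ) := by exact_mod_cast Nat.le_add_right _ _
          gcongr
  convert hgoal using 2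

theorem XW_scale {q : ℕ} {ι : Type} [Fintype ι] [NeZero q] (D K1 m : ℕ) (h : ι → ZMod q) :
    2 ^ m * XW D (K1 + m) h = XW D K1 h := by
  unfold XW
  rw [mul_sum]
  refine sum_congr rfl fun c _ => ?_
  rw [pow_add, pow_add, pow_add]
  field_simp

theorem x5 : St_X5 := by
  intro κ hκ e
  obtain ⟨C2, hC2⟩ := x2 κ hκ
  obtain ⟨C3, hC3⟩ := x3 κ hκ
  refine ⟨4 * C2 + C3 + e + 3 + 2 * ((e + 1) * 2 ^ κ), ?_⟩
  intro q _ hSuit hq ι _ _ hι D K0 hD1 hDκ hK0
  classical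
  set C := 4 * C2 + C3 + e + 3 + 2 * ((e + 1) * 2 ^ κ) with hCdef
  have hq3 : 3 ≤ q := by omega
  set L := La q with hL
  set u := uu q with hu
  have hL1 : 1 ≤ L := Nat.log_pos one_lt_two (by omega)
  have hu1 : 1 ≤ u := uu_pos q
  have hK0' : max 11 (κ + 2) * u + u + C ≤ K0 := by
    have : (max 11 (κ + 2) + 1) * u = max 11 (κ + 2) * u + u := by ring
    omega
  obtain ⟨K1, hK1⟩ : ∃ K1, K0 = K1 + (u + e) := ⟨K0 - (u + e), by omega⟩
  have hK1' : max 11 (κ + 2) * u ≤ K1 := by omega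
  set S := (univ : Finset (ι → ZMod q)).filter (fun h => (∀ a, h a ≠ 0) ∧ ¬ BdL D K0 h) with hS
  set S1 := S.filter (fun h => ¬ BdL D K1 h) with hS1
  set S2 := S.filter (fun h => BdL D K1 h ∧ ¬ BdP D K1 h) with hS2
  set S3 := S.filter (fun h => BdP D K1 h) with hS3
  have hcov : S ⊆ S1 ∪ (S2 ∪ S3) := by
    intro h hh
    rw [mem_union, mem_union]
    by_cases h1 : BdL D K1 h
    · by_cases h2 : BdP D K1 h
      · exact Or.inr (Or.inr (mem_filter.mpr ⟨hh, h2⟩))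
      · exact Or.inr (Or.inl (mem_filter.mpr ⟨hh, h1, h2⟩))
    · exact Or.inl (mem_filter.mpr ⟨hh, h1⟩)
  have hwn : ∀ h : ι → ZMod q, 0 ≤ wt h * min 1 (e * L * XW D K0 h) := fun h =>
    mul_nonneg (wt_nonneg h) (le_min zero_le_one (by have := XW_nonneg D K0 h; positivity))
  have hw1 : ∀ h : ι → ZMod q, wt h * min 1 (e * L * XW D K0 h) ≤ wt h := fun h =>
    mul_le_of_le_one_right (wt_nonneg h) (min_le_left _ _)
  have hcmp : ∀ h : ι → ZMod q, e * L * XW D K0 h ≤ XW D K1 h := by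
    intro h
    rw [← XW_scale D K1 (u + e) h, ← hK1]
    refine mul_le_mul_of_nonneg_right ?_ (XW_nonneg D K0 h)
    have h1 : e ≤ 2 ^ e := Nat.lt_two_pow_self.le
    have h2 : L ≤ 2 ^ u := (La_lt_uu q).le
    have h3 : e * L ≤ 2 ^ (u + e) := by
      rw [pow_add, mul_comm]
      exact Nat.mul_le_mul h2 h1
    exact_mod_cast h3
  have b1 : ∑ h ∈ S1, wt h * min 1 (e * L * XW D K0 h) ≤ C3 * (L : ℝ) ^ (κ - 1) := by
    calc ∑ h ∈ S1, wt h * min 1 (e * L * XW D K0 h) ≤ ∑ h ∈ S1, wt h * min 1 (XW D K1 h) :=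
          sum_le_sum fun h _ => mul_le_mul_of_nonneg_left (min_le_min_left 1 (hcmp h)) (wt_nonneg h)
      _ ≤ ∑ h ∈ (univ : Finset (ι → ZMod q)).filter (fun h => (∀ a, h a ≠ 0) ∧ ¬ BdL D K1 h),
          wt h * min 1 (XW D K1 h) := by
          refine sum_le_sum_of_subset_of_nonneg ?_ (fun h _ _ =>
            mul_nonneg (wt_nonneg h) (le_min zero_le_one (XW_nonneg _ _ _)))
          intro h hh
          rw [hS1, hS, mem_filter, mem_filter] at hh
          rw [mem_filter]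
          exact ⟨mem_univ _, hh.1.2.1, hh.2⟩
      _ ≤ C3 * (L : ℝ) ^ (κ - 1) := by
          convert hC3 q hSuit (by omega) ι hι D K1 hD1 hDκ hK1' using 2
  have b2 : ∑ h ∈ S2, wt h * min 1 (e * L * XW D K0 h) ≤ 4 * C2 * (L : ℝ) ^ (κ - 1) := by
    calc ∑ h ∈ S2, wt h * min 1 (e * L * XW D K0 h) ≤ ∑ h ∈ S2, wt h :=
          sum_le_sum fun h _ => hw1 h
      _ ≤ ∑ h ∈ (univ : Finset (ι → ZMod q)).filter (fun h => (∀ a, h a ≠ 0) ∧ ¬ BdP D K1 h ∧
            BdL D K1 h), wt h := by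
          refine sum_le_sum_of_subset_of_nonneg ?_ (fun h _ _ => wt_nonneg h)
          intro h hh
          rw [hS2, hS, mem_filter, mem_filter] at hh
          rw [mem_filter]
          exact ⟨mem_univ _, hh.1.2.1, hh.2.2, hh.2.1⟩
      _ ≤ C2 * (L : ℝ) ^ (κ - 2) * (uu q : ℝ) ^ 2 := by
          convert hC2 q hSuit (by omega) ι hι D K1 hD1 hDκ hK1' using 2
      _ ≤ C2 * (L : ℝ) ^ (κ - 2) * (4 * L) :=
          mul_le_mul_of_nonneg_left (uu_sq_le (q := q) (by omega)) (by positivity)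
      _ = 4 * C2 * (L : ℝ) ^ (κ - 1) := by
          have hLk : (L:ℝ) ^ (κ - 2) * L = (L:ℝ) ^ (κ - 1) := by
            rw [← pow_succ]
            congr 1
            omega
          rw [← hLk]
          ring
  have b3 : ∑ h ∈ S3, wt h * min 1 (e * L * XW D K0 h) ≤
      2 * ((e + 1) * 2 ^ κ) * (L : ℝ) ^ (κ - 1) * u := by
    have h1 := prim_window hq3 (by omega) D K0 K1 (by omega) S3
      (fun h hh => (mem_filter.mp (mem_filter.mp hh).1).2.1)
      (fun h hh => (mem_filter.mp (mem_filter.mp hh).1).2.2)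
      (fun h hh => (mem_filter.mp hh).2)
    rw [hι] at h1
    have h2 : K0 - K1 ≤ (e + 1) * u := by
      have : e ≤ e * u := Nat.le_mul_of_pos_right _ (by omega)
      have : (e + 1) * u = e * u + u := by ring
      omega
    have h2' : ((K0 - K1 : ℕ) : ℝ) ≤ (e + 1) * u := by exact_mod_cast h2
    calc ∑ h ∈ S3, wt h * min 1 (e * L * XW D K0 h) ≤ ∑ h ∈ S3, wt h :=
          sum_le_sum fun h _ => hw1 h
      _ ≤ 2 * ((K0 - K1 : ℕ) * ((La q : ℝ) ^ (κ - 1) * 2 ^ κ)) := h1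
      _ ≤ 2 * (((e + 1) * u) * ((La q : ℝ) ^ (κ - 1) * 2 ^ κ)) := by gcongr
      _ = _ := by ring
  have hu1r : (1:ℝ) ≤ u := by exact_mod_cast hu1
  have hLp : (0:ℝ) ≤ (L : ℝ) ^ (κ - 1) := by positivity
  have hgoal : ∑ h ∈ S, wt h * min 1 (e * L * XW D K0 h) ≤ (C : ℝ) * (L : ℝ) ^ (κ - 1) * u := by
    calc ∑ h ∈ S, wt h * min 1 (e * L * XW D K0 h)
        ≤ ∑ h ∈ S1 ∪ (S2 ∪ S3), wt h * min 1 (e * L * XW D K0 h) :=
          sum_le_sum_of_subset_of_nonneg hcov (fun h _ _ => hwn h)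
      _ ≤ ∑ h ∈ S1, wt h * min 1 (e * L * XW D K0 h) +
          ∑ h ∈ S2 ∪ S3, wt h * min 1 (e * L * XW D K0 h) := by
          rw [← sum_union_inter]
          exact le_add_of_nonneg_right (sum_nonneg fun h _ => hwn h)
      _ ≤ ∑ h ∈ S1, wt h * min 1 (e * L * XW D K0 h) +
          (∑ h ∈ S2, wt h * min 1 (e * L * XW D K0 h) +
           ∑ h ∈ S3, wt h * min 1 (e * L * XW D K0 h)) := by
          refine add_le_add_right ?_ _
          rw [← sum_union_inter (s₁ := S2)]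
          exact le_add_of_nonneg_right (sum_nonneg fun h _ => hwn h)
      _ ≤ C3 * (L : ℝ) ^ (κ - 1) + (4 * C2 * (L : ℝ) ^ (κ - 1) +
          2 * ((e + 1) * 2 ^ κ) * (L : ℝ) ^ (κ - 1) * u) := add_le_add b1 (add_le_add b2 b3)
      _ ≤ C3 * (L : ℝ) ^ (κ - 1) * u + (4 * C2 * (L : ℝ) ^ (κ - 1) * u +
          2 * ((e + 1) * 2 ^ κ) * (L : ℝ) ^ (κ - 1) * u) := by
          have f1 : C3 * (L : ℝ) ^ (κ - 1) ≤ C3 * (L : ℝ) ^ (κ - 1) * u :=
            le_mul_of_one_le_right (by positivity) hu1r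
          have f2 : 4 * C2 * (L : ℝ) ^ (κ - 1) ≤ 4 * C2 * (L : ℝ) ^ (κ - 1) * u :=
            le_mul_of_one_le_right (by positivity) hu1r
          linarith
      _ = ((4 * C2 + C3 + 2 * ((e + 1) * 2 ^ κ) : ℝ)) * ((L : ℝ) ^ (κ - 1) * u) := by ring
      _ ≤ (C : ℝ) * ((L : ℝ) ^ (κ - 1) * u) := by
          refine mul_le_mul_of_nonneg_right ?_ (by positivity)
          rw [hCdef]
          push_cast
          have : (0:ℝ) ≤ e := Nat.cast_nonneg e
          linarith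
      _ = _ := by ring
  convert hgoal using 2

end Pool.Agent.Y319.SX
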