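import Pool.Agent.Y319.SX.Nbr

set_option autoImplicit false
set_option linter.unusedSectionVars false

/-!
# Uniform power saving: primitive vectors
-/

namespace Pool.Agent.Y319.SX

open Finset Pool.Agent.H935R2.PS Pool.Agent.Y258 Pool.Agent.Y316.SD

section

variable {q : ℕ} [Fact q.Prime] {ι : Type} [Fintype ι]

/-- the primitive decomposition of a vector with full support -/
structure Dc (h : ι → ZMod q) (g : ℕ) (v x : ι → ℤ) : Prop where
  one_le : 1 ≤ g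
  lt : g < q
  vma : ∀ a, (h a).valMinAbs = g * v a
  bez : ∑ a, x a * v a = 1
  v_ne : ∀ a, v a ≠ 0
  v_lt : ∀ a, 2 * (v a).natAbs < q
  eq : ∀ a, h a = (g : ZMod q) * ((v a : ℤ) : ZMod q)
  g_ne : (g : ZMod q) ≠ 0

theorem exists_Dc (hq : 3 ≤ q) (hκ : 1 ≤ Fintype.card ι) (h : ι → ZMod q) (h0 : ∀ a, h a ≠ 0) :
    ∃ (g : ℕ) (v x : ι → ℤ), Dc h g v x := by
  obtain ⟨a0⟩ : Nonempty ι := Fintype.card_pos_iff.mp (by omega)
  obtain ⟨g, v, x, hg, hv, hx⟩ := exists_prim (fun a => (h a).valMinAbs) a0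
        (fun h1 => h0 a0 ((ZMod.valMinAbs_eq_zero _).mp h1))
  have e1 : ∀ a, nn (h a) = g * (v a).natAbs := by
    intro a
    unfold nn
    rw [hv a, Int.natAbs_mul, Int.natAbs_natCast]
  have e2 : ∀ a, v a ≠ 0 := by
    intro a h1
    apply h0 a
    rw [← ZMod.valMinAbs_eq_zero, hv a, h1, mul_zero]
  have e3 : ∀ a, 2 * (v a).natAbs < q := by
    intro a
    have h1 := two_nn_lt hq (h a)
    rw [e1] at h1
    have h2 : (v a).natAbs ≤ g * (v a).natAbs := Nat.le_mul_of_pos_left _ hg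
    omega
  have e4 : ∀ a, h a = (g : ZMod q) * ((v a : ℤ) : ZMod q) := by
    intro a
    conv_lhs => rw [← ZMod.coe_valMinAbs (h a), hv a]
    push_cast
    rfl
  have e5 : g < q := by
    have h1 := two_nn_lt hq (h a0)
    have h2 : g ≤ g * (v a0).natAbs :=
      Nat.le_mul_of_pos_right _ (Int.natAbs_pos.mpr (e2 a0))
    rw [e1] at h1
    omega
  have e6 : (g : ZMod q) ≠ 0 := by
    intro h1
    rw [ZMod.natCast_eq_zero_iff] at h1
    have := Nat.le_of_dvd hg h1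
    omega
  exact ⟨g, v, x, hg, e5, hv, hx, e2, e3, e4, e6⟩

/-- the primitive vector mod `q` -/
def h0v (q : ℕ) (v : ι → ℤ) : ι → ZMod q := fun a => ((v a : ℤ) : ZMod q)

theorem Dc.inv_mul {h : ι → ZMod q} {g : ℕ} {v x : ι → ℤ} (d : Dc h g v x) :
    (fun a => (g : ZMod q)⁻¹ * h a) = h0v q v := by
  funext a
  rw [d.eq a, ← mul_assoc, inv_mul_cancel₀ d.g_ne, one_mul]
  rfl

theorem Dc.h0_ne {h : ι → ZMod q} {g : ℕ} {v x : ι → ℤ} (d : Dc h g v x) (h0 : ∀ a, h a ≠ 0) :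
    ∀ a, h0v q v a ≠ 0 := by
  intro a
  rw [← congrFun d.inv_mul a]
  exact mul_ne_zero (inv_ne_zero d.g_ne) (h0 a)

theorem Dc.not_bd {h : ι → ZMod q} {g : ℕ} {v x : ι → ℤ} (d : Dc h g v x) {D K0 : ℕ}
    (hB : ¬ BdL D K0 h) : ¬ Bd D K0 (h0v q v) := by
  intro h1
  refine hB ⟨(g : ZMod q)⁻¹, inv_ne_zero d.g_ne, ?_⟩
  rw [d.inv_mul]
  exact h1

theorem Dc.nn_v {h : ι → ZMod q} {g : ℕ} {v x : ι → ℤ} (d : Dc h g v x) (a : ι) :
    nn (h0v q v a) = (v a).natAbs := nn_intCast (v a) (d.v_lt a)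

theorem Dc.nn_h {h : ι → ZMod q} {g : ℕ} {v x : ι → ℤ} (d : Dc h g v x) (a : ι) :
    nn (h a) = g * (v a).natAbs := by
  unfold nn
  rw [d.vma a, Int.natAbs_mul, Int.natAbs_natCast]

/-- a vector which is parallel to a bad vector has a bad primitive vector -/
theorem Dc.bd {h : ι → ZMod q} {g : ℕ} {v x : ι → ℤ} (d : Dc h g v x) {D K0 : ℕ}
    (hB : BdP D K0 h) : Bd D K0 (h0v q v) := by
  obtain ⟨h', h'0, hP, hB⟩ := hB
  have hgz : (g:ℤ) ≠ 0 := by
    have := d.one_le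
    exact_mod_cast (by omega : g ≠ 0)
  have h1 : ∀ a b, v a * (h' b).valMinAbs = v b * (h' a).valMinAbs := by
    intro a b
    have h2 := hP a b
    rw [d.vma a, d.vma b, mul_assoc, mul_assoc] at h2
    exact mul_left_cancel₀ hgz h2
  set G : ℤ := ∑ a, x a * (h' a).valMinAbs with hG
  have hGv : ∀ b, (h' b).valMinAbs = G * v b := by
    intro b
    calc (h' b).valMinAbs = (∑ a, x a * v a) * (h' b).valMinAbs := by rw [d.bez, one_mul]
      _ = ∑ a, x a * (v b * (h' a).valMinAbs) := by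
          rw [sum_mul]
          exact sum_congr rfl fun a _ => by rw [mul_assoc, h1 a b]
      _ = G * v b := by
          rw [hG, sum_mul]
          exact sum_congr rfl fun a _ => by ring
  refine le_trans (Nat.add_le_add_right (sum_le_sum fun b _ => ?_) K0) hB
  unfold dl
  refine Nat.log_mono_right ?_
  rw [d.nn_v b]
  unfold nn
  rw [hGv b, Int.natAbs_mul]
  refine Nat.le_mul_of_pos_left _ (Int.natAbs_pos.mpr ?_)
  intro h0
  apply h'0 b
  rw [← ZMod.valMinAbs_eq_zero, hGv b, h0, zero_mul]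

theorem Dc.wt_le {h : ι → ZMod q} {g : ℕ} {v x : ι → ℤ} (d : Dc h g v x)
    (hκ : 2 ≤ Fintype.card ι) : wt h ≤ 1 / (g : ℝ) ^ 2 * wt (h0v q v) := by
  have h4 : wt h = (1 / (g : ℝ)) ^ Fintype.card ι * wt (h0v q v) := by
    unfold wt
    rw [← prod_div_const]
    refine prod_congr rfl fun a _ => ?_
    rw [d.nn_h a, d.nn_v a]
    push_cast
    rw [one_div_mul_one_div]
  rw [h4]
  refine mul_le_mul_of_nonneg_right ?_ (wt_nonneg _)
  have h5 : (1:ℝ) ≤ g := by exact_mod_cast d.one_le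
  calc (1 / (g : ℝ)) ^ Fintype.card ι ≤ (1 / (g : ℝ)) ^ 2 := by
        refine pow_le_pow_of_le_one (by positivity) ?_ hκ
        rw [div_le_one (by linarith)]
        exact h5
    _ = _ := by rw [one_div_pow]

variable [DecidableEq ι]

open Classical in
/-- the parallel part of the total weight is bounded when there is no short vector -/
theorem par_le (hq : 3 ≤ q) (hκ : 2 ≤ Fintype.card ι) (D K0 : ℕ) (h : ι → ZMod q)
    (h0 : ∀ a, h a ≠ 0) (hB : ¬ BdL D K0 h) :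
    ∑ c ∈ (univ : Finset (ZMod q)).filter (fun c => c ≠ 0 ∧ Prl h (fun a => c * h a)),
        (2:ℝ) ^ (D * La q) / 2 ^ (K0 + sz (fun a => c * h a)) ≤ 2 ^ (Fintype.card ι + 2) := by
  obtain ⟨g, v, x, d⟩ := exists_Dc hq (by omega) h h0
  have h1 := par_sum hq hκ h h0 g v x d.one_le d.vma d.bez
  have h2 : ∑ c ∈ (univ : Finset (ZMod q)).filter
      (fun c => c ≠ 0 ∧ Prl h (fun a => c * h a)),
      (2:ℝ) ^ (D * La q) / 2 ^ (K0 + sz (fun a => c * h a)) =
      (2 ^ (D * La q) / 2 ^ K0) * ∑ c ∈ (univ : Finset (ZMod q)).filter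
      (fun c => c ≠ 0 ∧ Prl h (fun a => c * h a)), (1:ℝ) / 2 ^ (∑ a, dl (c * h a)) := by
    rw [mul_sum]
    refine sum_congr rfl fun c _ => ?_
    rw [pow_add]
    unfold sz
    field_simp
  rw [h2]
  have h3 := d.not_bd hB
  unfold Bd at h3
  rw [not_le] at h3
  have h4 := Pool.Agent.Y316.SD.wt_le (h0v q v) (d.h0_ne h0)
  have h5 : (2:ℝ) ^ (D * La q) / 2 ^ K0 * wt (h0v q v) ≤ 1 := by
    calc (2:ℝ) ^ (D * La q) / 2 ^ K0 * wt (h0v q v) ≤
        (2:ℝ) ^ (D * La q) / 2 ^ K0 * (1 / 2 ^ (∑ a, dl (h0v q v a))) :=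
          mul_le_mul_of_nonneg_left h4 (by positivity)
      _ = (2:ℝ) ^ (D * La q) / 2 ^ (∑ a, dl (h0v q v a) + K0) := by
          rw [pow_add]
          field_simp
      _ ≤ 1 := by
          rw [div_le_one (by positivity)]
          exact pow_le_pow_right₀ (by norm_num) h3.le
  refine (mul_le_mul_of_nonneg_left h1 (by positivity)).trans ?_
  calc (2:ℝ) ^ (D * La q) / 2 ^ K0 * (2 ^ Fintype.card ι * 4 * wt (h0v q v))
      = (2 ^ Fintype.card ι * 4) * ((2:ℝ) ^ (D * La q) / 2 ^ K0 * wt (h0v q v)) := by ring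
    _ ≤ (2 ^ Fintype.card ι * 4) * 1 := mul_le_mul_of_nonneg_left h5 (by positivity)
    _ = _ := by rw [pow_add]; norm_num

open Classical in
/-- weights in a dyadic box -/
theorem box_wt (T : Finset (ι → ZMod q)) (hT : ∀ h ∈ T, ∀ a, h a ≠ 0) (b : ι → ℕ) :
    ∑ h ∈ T.filter (fun h => (fun a => dl (h a)) = b), wt h ≤ 2 ^ Fintype.card ι := by
  calc ∑ h ∈ T.filter (fun h => (fun a => dl (h a)) = b), wt h
      ≤ ∑ h ∈ T.filter (fun h => (fun a => dl (h a)) = b), 1 / 2 ^ (∑ a, b a) := by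
        refine sum_le_sum fun h hh => ?_
        have h1 := Pool.Agent.Y316.SD.wt_le h (hT h (mem_filter.mp hh).1)
        rwa [← (mem_filter.mp hh).2]
    _ = ((T.filter (fun h => (fun a => dl (h a)) = b)).card : ℝ) * (1 / 2 ^ (∑ a, b a)) := by
        rw [sum_const, nsmul_eq_mul]
    _ ≤ (2 ^ Fintype.card ι * 2 ^ (∑ a, b a)) * (1 / 2 ^ (∑ a, b a)) := by
        refine mul_le_mul_of_nonneg_right ?_ (by positivity)
        have hsub : T.filter (fun h => (fun a => dl (h a)) = b) ⊆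
            (univ : Finset (ι → ZMod q)).filter (fun h => ∀ a, h a ≠ 0 ∧ dl (h a) = b a) := by
          intro h hh
          rw [mem_filter] at hh
          rw [mem_filter]
          exact ⟨mem_univ _, fun a => ⟨hT h hh.1 a, congrFun hh.2 a⟩⟩
        have h1 := (card_le_card hsub).trans (card_box (q := q) b)
        exact_mod_cast h1
    _ = 2 ^ Fintype.card ι := by field_simp

open Classical in
/-- the weights of the vectors whose total size lies in a window -/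
theorem window_wt (hq : 2 ≤ q) (hκ : 1 ≤ Fintype.card ι) (E K0 K1 : ℕ) (h10 : K1 ≤ K0)
    (T : Finset (ι → ZMod q))
    (hT : ∀ h ∈ T, ∀ a, h a ≠ 0) (h1 : ∀ h ∈ T, E < sz h + K0) (h2 : ∀ h ∈ T, sz h + K1 ≤ E) :
    ∑ h ∈ T, wt h ≤ (K0 - K1 : ℕ) * ((La q : ℝ) ^ (Fintype.card ι - 1) * 2 ^ Fintype.card ι) := by
  obtain ⟨a0⟩ : Nonempty ι := Fintype.card_pos_iff.mp (by omega)
  set L := La q with hL
  set Bs := (Ico (E + 1 - K0) (E + 1 - K1)).biUnion
    (fun s => (Bx ι L).filter (fun b => ∑ i, b i = s)) with hBs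
  have hmap : ∀ h ∈ T, (fun a => dl (h a)) ∈ Bs := by
    intro h hh
    rw [hBs, mem_biUnion]
    refine ⟨sz h, ?_, ?_⟩
    · have e1 := h1 h hh
      have e2 := h2 h hh
      rw [mem_Ico]
      omega
    · rw [mem_filter, mem_Bx]
      exact ⟨fun a => dl_lt hq _ (hT h hh a), rfl⟩
  rw [← Finset.sum_fiberwise_of_maps_to hmap]
  refine (sum_le_sum fun b _ => box_wt T hT b).trans ?_
  rw [sum_const, nsmul_eq_mul]
  have hc : Bs.card ≤ (K0 - K1) * L ^ (Fintype.card ι - 1) := by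
    refine card_biUnion_le.trans ?_
    refine (sum_le_sum fun s _ => fib1 L s a0).trans ?_
    rw [sum_const, smul_eq_mul, Nat.card_Ico]
    refine Nat.mul_le_mul_right _ ?_
    omega
  have hc' : (Bs.card : ℝ) ≤ (K0 - K1 : ℕ) * (L:ℝ) ^ (Fintype.card ι - 1) := by
    exact_mod_cast hc
  calc (Bs.card : ℝ) * 2 ^ Fintype.card ι ≤
      ((K0 - K1 : ℕ) * (L:ℝ) ^ (Fintype.card ι - 1)) * 2 ^ Fintype.card ι :=
        mul_le_mul_of_nonneg_right hc' (by positivity)
    _ = _ := by ring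

open Classical in
/-- the multiples of short primitive vectors which are not very short -/
theorem prim_window (hq : 3 ≤ q) (hκ : 2 ≤ Fintype.card ι) (D K0 K1 : ℕ) (h10 : K1 ≤ K0)
    (S : Finset (ι → ZMod q)) (hS : ∀ h ∈ S, ∀ a, h a ≠ 0) (h1 : ∀ h ∈ S, ¬ BdL D K0 h)
    (h2 : ∀ h ∈ S, BdP D K1 h) :
    ∑ h ∈ S, wt h ≤
      2 * ((K0 - K1 : ℕ) * ((La q : ℝ) ^ (Fintype.card ι - 1) * 2 ^ Fintype.card ι)) := by
  have hch : ∀ h : ι → ZMod q, ∃ (g : ℕ) (v x : ι → ℤ), (∀ a, h a ≠ 0) → Dc h g v x := by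
    intro h
    by_cases h0 : ∀ a, h a ≠ 0
    · obtain ⟨g, v, x, hd⟩ := exists_Dc hq (by omega) h h0
      exact ⟨g, v, x, fun _ => hd⟩
    · exact ⟨0, 0, 0, fun h1 => absurd h1 h0⟩
  choose g v x hd using hch
  have hdS : ∀ h ∈ S, Dc h (g h) (v h) (x h) := fun h hh => hd h (hS h hh)
  set T := S.image (fun h => h0v q (v h)) with hT
  have hTw : ∑ h ∈ T, wt h ≤
      (K0 - K1 : ℕ) * ((La q : ℝ) ^ (Fintype.card ι - 1) * 2 ^ Fintype.card ι) := by
    refine window_wt (by omega) (by omega) (D * La q) K0 K1 h10 T ?_ ?_ ?_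
    · intro h hh
      obtain ⟨h', hh', rfl⟩ := mem_image.mp hh
      exact (hdS h' hh').h0_ne (hS h' hh')
    · intro h hh
      obtain ⟨h', hh', rfl⟩ := mem_image.mp hh
      have := (hdS h' hh').not_bd (h1 h' hh')
      unfold Bd at this
      exact not_le.mp this
    · intro h hh
      obtain ⟨h', hh', rfl⟩ := mem_image.mp hh
      exact (hdS h' hh').bd (h2 h' hh')
  have hinj : Set.InjOn (fun h : ι → ZMod q => (g h, h0v q (v h))) S := by
    intro h hh h' hh' e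
    rw [Prod.mk.injEq] at e
    funext a
    have e5 := congrFun e.2 a
    unfold h0v at e5
    rw [(hdS h hh).eq a, (hdS h' hh').eq a, e.1, e5]
  have himg : S.image (fun h : ι → ZMod q => (g h, h0v q (v h))) ⊆ Ioo 0 q ×ˢ T := by
    intro p hp
    obtain ⟨h, hh, rfl⟩ := mem_image.mp hp
    rw [mem_product, mem_Ioo]
    exact ⟨⟨(hdS h hh).one_le, (hdS h hh).lt⟩, mem_image_of_mem _ hh⟩
  have hsum : ∑ h ∈ S, 1 / (g h : ℝ) ^ 2 * wt (h0v q (v h)) =
      ∑ p ∈ S.image (fun h : ι → ZMod q => (g h, h0v q (v h))), 1 / (p.1 : ℝ) ^ 2 * wt p.2 := by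
    rw [sum_image hinj]
  refine (sum_le_sum fun h hh => (hdS h hh).wt_le hκ).trans ?_
  rw [hsum]
  refine (sum_le_sum_of_subset_of_nonneg himg (fun p _ _ =>
    mul_nonneg (by positivity) (wt_nonneg _))).trans ?_
  have h3 := sum_inv_sq_nat (Ioo 0 q) (by simp)
  rw [← sum_product_mul_sum_aux (Ioo 0 q) T (fun n : ℕ => 1 / (n : ℝ) ^ 2) (fun h => wt h)]
  exact mul_le_mul h3 hTw (sum_nonneg fun h _ => wt_nonneg h) (by norm_num)

end

end Pool.Agent.Y319.SX
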