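import Pool.Agent.Y285.SD.A1
import Pool.Agent.Y258.SX.XStmts

set_option autoImplicit false

/-!
# Uniform power saving: X1
-/

namespace Pool.Agent.Y319.SX

open Finset Pool.Agent.H935R2.PS Pool.Agent.Y258 Pool.Agent.Y285.SD

theorem x1 : St_X1 := by
  intro κ hκ
  refine ⟨160 ^ κ * κ * 2112 + 128, ?_⟩
  intro q hq hs _ ι _ _ hcard b b'
  classical
  have hq0 : (0 : ℝ) < q := by exact_mod_cast (Fact.out : q.Prime).pos
  have hq2 : 2 ≤ q := (Fact.out : q.Prime).two_le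
  have hL1 : 1 ≤ La q := by
    unfold La
    exact Nat.log_pos one_lt_two hq2
  have hL1' : (1:ℝ) ≤ La q := by exact_mod_cast hL1
  obtain ⟨C, hC⟩ : ∃ C : ℕ, C = 160 ^ κ * κ * 2112 + 128 := ⟨_, rfl⟩
  rw [← hC]
  have hC128 : 128 ≤ C := by omega
  have hT1 : (0:ℝ) ≤ (2:ℝ) ^ (∑ a, (b a + b' a)) / (q:ℝ) ^ (κ - 1) := by positivity
  have hT2 : (0:ℝ) ≤ √((2:ℝ) ^ (∑ a, (b a + b' a))) * ∑ a, √((2:ℝ) ^ (b a + b' a)) / q := by
    positivity
  rcases (NP (q := q) b b').eq_empty_or_nonempty with he | ⟨⟨h, c⟩, hh⟩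
  · rw [he]
    simp only [card_empty, Nat.cast_zero]
    positivity
  unfold NP at hh
  rw [mem_filter] at hh
  obtain ⟨-, hc, ha, -⟩ := hh
  simp only at hc ha
  have hb : ∀ a, b a < La q := fun a => by
    rw [← (ha a).2.1]
    exact dl_lt hq2 _ (ha a).1
  have hb' : ∀ a, b' a < La q := fun a => by
    rw [← (ha a).2.2]
    exact dl_lt hq2 _ (mul_ne_zero hc (ha a).1)
  have huu : (2:ℝ) ^ (7 * uu q) ≤ 128 * (La q : ℝ) ^ 7 := by
    have h1 : (2:ℝ) ^ uu q ≤ 2 * La q := by exact_mod_cast uu_le q hq2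
    rw [mul_comm 7, pow_mul]
    calc ((2:ℝ) ^ uu q) ^ 7 ≤ (2 * La q) ^ 7 := by gcongr
      _ = 128 * (La q : ℝ) ^ 7 := by ring
  have hLC : ∀ n : ℕ, n ≤ C → (La q : ℝ) ^ n ≤ (La q : ℝ) ^ C := fun n hn =>
    pow_le_pow_right₀ hL1' hn
  have hCr : (C : ℝ) = 160 ^ κ * κ * 2112 + 128 := by
    rw [hC]
    push_cast
    ring
  have hκ0 : (0:ℝ) ≤ 160 ^ κ * κ := by positivity
  rcases Nat.lt_or_ge κ 3 with h3 | h3
  · have hk2 : κ = 2 := by omega
    have h1 := NP_le2 (q := q) hs b b' (hcard.trans hk2) hb hb'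
    rw [hk2] at hT1 ⊢
    refine h1.trans ?_
    rw [if_pos rfl]
    have h4 : (2:ℝ) ^ (7 * uu q) ≤ C * (La q : ℝ) ^ 7 := by
      refine huu.trans ?_
      have : (128:ℝ) ≤ C := by exact_mod_cast hC128
      exact mul_le_mul_of_nonneg_right this (by positivity)
    refine le_trans (mul_le_mul_of_nonneg_right h4 hT1) (le_add_of_nonneg_right ?_)
    positivity
  · have h1 := NP_le3 (q := q) hs b b' (by omega) hb hb'
    rw [hcard] at h1
    refine h1.trans ?_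
    rw [if_neg (by omega), pow_zero, mul_one]
    apply add_le_add
    · apply mul_le_mul_of_nonneg_right _ hT1
      have h5 : (4:ℝ) * κ * 160 ^ κ ≤ (C : ℝ) := by
        rw [hCr]
        generalize (160:ℝ) ^ κ = z at hκ0 ⊢
        linarith
      exact h5
    · apply mul_le_mul_of_nonneg_right _ hT2
      have hL2 : (La q : ℝ) + 1 ≤ 2 * La q := by linarith
      have h6 : ((La q : ℝ) + 1) ^ 2 ≤ 4 * (La q : ℝ) ^ C := by
        calc ((La q : ℝ) + 1) ^ 2 ≤ (2 * La q) ^ 2 := by gcongr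
          _ = 4 * (La q : ℝ) ^ 2 := by ring
          _ ≤ 4 * (La q : ℝ) ^ C := mul_le_mul_of_nonneg_left (hLC 2 (by omega)) (by norm_num)
      have h7 : ((La q : ℝ) + 1) ^ 4 * 2 ^ (7 * uu q) ≤ 2048 * (La q : ℝ) ^ C := by
        calc ((La q : ℝ) + 1) ^ 4 * 2 ^ (7 * uu q) ≤ (2 * La q) ^ 4 * (128 * (La q : ℝ) ^ 7) := by
              gcongr
          _ = 2048 * (La q : ℝ) ^ 11 := by ring
          _ ≤ 2048 * (La q : ℝ) ^ C := mul_le_mul_of_nonneg_left (hLC 11 (by omega)) (by norm_num)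
      calc (160:ℝ) ^ κ * (16 * κ * ((La q : ℝ) + 1) ^ 2 + κ * ((La q : ℝ) + 1) ^ 4 * 2 ^ (7 * uu q))
          = (160:ℝ) ^ κ * κ * (16 * ((La q : ℝ) + 1) ^ 2) +
            (160:ℝ) ^ κ * κ * (((La q : ℝ) + 1) ^ 4 * 2 ^ (7 * uu q)) := by ring
        _ ≤ (160:ℝ) ^ κ * κ * (16 * (4 * (La q : ℝ) ^ C)) +
            (160:ℝ) ^ κ * κ * (2048 * (La q : ℝ) ^ C) := by gcongr
        _ = (160:ℝ) ^ κ * κ * 2112 * (La q : ℝ) ^ C := by ring
        _ ≤ C * (La q : ℝ) ^ C := by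
            rw [hCr]
            apply mul_le_mul_of_nonneg_right _ (by positivity)
            linarith

end Pool.Agent.Y319.SX
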